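import Pool.Agent.helper14.NS.Q30a.PN6

/-!
Generated: certificates.
-/

namespace Pool.Agent.helper14.NS.Q30a

open Pool.Agent.helper31.IA (Z)
open Pool.Agent.helper31.IX (Op XOps runX Cov CovD cov_split covD_split)
open Pool.Agent.helper31.IC (TD)
open Pool.Agent.helper63.RG (reloc)
open Pool.Agent.helper63.NF hiding TD
open Pool.Agent.helper4.NS
open Pool.Agent.helper14.CF (xE covD_E)
open Pool.Agent.helper14.NR (share)

mutual
theorem A6_c0_t6 : CovD 1 gA6 [(30541873152, 6109003776), (137438953472, 137438953472), (68719476736, 68719476736)] :=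
  covD_E kA6_eq (.n 2 (.l 2) (.n 2 (.l 2) (.n 1 (.n 1 (.n 2 (.l 2) (.n 0 (.n 1 (.n 1 (.l 0) (.l 0)) (.l 0)) (.n 1 (.n 1 (.l 0) (.l 0)) (.l 0)))) (.n 0 (.l 0) (.l 0))) (.n 0 (.l 0) (.l 0)))))
    [(30541873152, 6109003776), (137438953472, 137438953472), (68719476736, 68719476736)] rfl (by decide +kernel)
theorem A6_c0_t8 : CovD 1 gA6 [(27487371264, 3054501888), (137438953472, 137438953472), (206158430208, 68719476736)] :=
  covD_E kA6_eq (.n 1 (.n 1 (.n 1 (.n 2 (.n 2 (.n 1 (.l 0) (.l 0)) (.l 0)) (.n 1 (.l 0) (.l 0))) (.n 1 (.n 2 (.l 0) (.l 0)) (.n 2 (.l 0) (.l 0)))) (.n 1 (.n 2 (.l 0) (.l 0)) (.n 1 (.l 0) (.l 0)))) (.n 1 (.n 0 (.l 0) (.l 0)) (.l 0)))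
    [(27487371264, 3054501888), (137438953472, 137438953472), (206158430208, 68719476736)] rfl (by decide +kernel)
end

mutual
theorem A6_c0_t9 : CovD 1 gA6 [(33596375040, 3054501888), (137438953472, 137438953472), (206158430208, 68719476736)] :=
  covD_E kA6_eq (.n 1 (.n 1 (.n 1 (.n 2 (.n 2 (.n 1 (.l 0) (.l 0)) (.l 0)) (.n 1 (.l 0) (.l 0))) (.n 1 (.n 2 (.l 0) (.l 0)) (.n 2 (.l 0) (.l 0)))) (.n 1 (.n 2 (.l 0) (.l 0)) (.n 1 (.l 0) (.l 0)))) (.n 1 (.n 0 (.l 0) (.l 0)) (.l 0)))
    [(33596375040, 3054501888), (137438953472, 137438953472), (206158430208, 68719476736)] rfl (by decide +kernel)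
theorem A6_c0_t11 : CovD 1 gA6 [(27487371264, 3054501888), (137438953472, 137438953472), (412316860416, 137438953472)] :=
  covD_E kA6_eq (.n 1 (.n 1 (.n 1 (.n 2 (.n 1 (.l 0) (.l 0)) (.l 0)) (.n 2 (.n 1 (.l 0) (.l 0)) (.l 0))) (.n 2 (.n 2 (.l 0) (.l 0)) (.n 0 (.l 0) (.l 0)))) (.n 1 (.n 2 (.l 0) (.l 0)) (.n 2 (.l 0) (.l 0))))
    [(27487371264, 3054501888), (137438953472, 137438953472), (412316860416, 137438953472)] rfl (by decide +kernel)
end

mutual
theorem A6_c0_t12 : CovD 1 gA6 [(33596375040, 3054501888), (137438953472, 137438953472), (412316860416, 137438953472)] :=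
  covD_E kA6_eq (.n 1 (.n 1 (.n 1 (.n 2 (.n 1 (.l 0) (.l 0)) (.l 0)) (.n 2 (.n 1 (.l 0) (.l 0)) (.l 0))) (.n 2 (.n 2 (.l 0) (.l 0)) (.n 0 (.l 0) (.l 0)))) (.n 1 (.n 2 (.l 0) (.l 0)) (.n 2 (.l 0) (.l 0))))
    [(33596375040, 3054501888), (137438953472, 137438953472), (412316860416, 137438953472)] rfl (by decide +kernel)
theorem A6_c0_t14 : CovD 1 gA6 [(30541873152, 6109003776), (137438953472, 137438953472), (687194767360, 137438953472)] :=
  covD_E kA6_eq (.n 0 (.n 1 (.n 1 (.n 2 (.l 0) (.l 0)) (.n 2 (.l 0) (.l 0))) (.n 1 (.n 2 (.l 0) (.l 0)) (.n 2 (.l 0) (.l 0)))) (.n 1 (.n 1 (.n 2 (.l 0) (.l 0)) (.n 2 (.l 0) (.l 0))) (.n 1 (.n 2 (.l 0) (.l 0)) (.n 2 (.l 0) (.l 0)))))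
    [(30541873152, 6109003776), (137438953472, 137438953472), (687194767360, 137438953472)] rfl (by decide +kernel)
end

mutual
theorem A6_c0_t15 : CovD 1 gA6 [(30541873152, 6109003776), (137438953472, 137438953472), (962072674304, 137438953472)] :=
  covD_E kA6_eq (.n 0 (.n 1 (.n 2 (.l 0) (.n 0 (.l 0) (.l 0))) (.n 2 (.l 0) (.l 0))) (.n 0 (.n 1 (.n 1 (.l 0) (.l 0)) (.n 1 (.l 0) (.l 0))) (.n 1 (.n 2 (.l 0) (.l 0)) (.n 2 (.l 0) (.l 0)))))
    [(30541873152, 6109003776), (137438953472, 137438953472), (962072674304, 137438953472)] rfl (by decide +kernel)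
theorem A6_c0_t18 : CovD 1 gA6 [(30541873152, 6109003776), (137438953472, 137438953472), (1236950581248, 137438953472)] :=
  covD_E kA6_eq (.n 0 (.n 1 (.n 0 (.n 1 (.l 0) (.l 0)) (.n 1 (.l 0) (.l 0))) (.n 2 (.l 0) (.n 0 (.l 0) (.l 0)))) (.n 1 (.n 1 (.n 2 (.l 0) (.l 0)) (.n 2 (.l 0) (.l 0))) (.n 0 (.n 2 (.l 0) (.l 0)) (.n 2 (.l 0) (.l 0)))))
    [(30541873152, 6109003776), (137438953472, 137438953472), (1236950581248, 137438953472)] rfl (by decide +kernel)
end

mutual
theorem A6_c0_t20 : CovD 1 gA6 [(27487371264, 3054501888), (137438953472, 137438953472), (1511828488192, 137438953472)] :=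
  covD_E kA6_eq (.n 0 (.n 1 (.n 2 (.l 0) (.l 0)) (.n 1 (.l 0) (.l 0))) (.n 1 (.n 2 (.l 0) (.l 0)) (.n 2 (.l 0) (.l 0))))
    [(27487371264, 3054501888), (137438953472, 137438953472), (1511828488192, 137438953472)] rfl (by decide +kernel)
theorem A6_c0_t21 : CovD 1 gA6 [(33596375040, 3054501888), (137438953472, 137438953472), (1511828488192, 137438953472)] :=
  covD_E kA6_eq (.n 1 (.n 0 (.n 2 (.l 0) (.n 0 (.l 0) (.l 0))) (.n 1 (.n 2 (.l 0) (.l 0)) (.n 2 (.l 0) (.l 0)))) (.n 1 (.n 2 (.l 0) (.l 0)) (.n 2 (.l 0) (.l 0))))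
    [(33596375040, 3054501888), (137438953472, 137438953472), (1511828488192, 137438953472)] rfl (by decide +kernel)
end

mutual
theorem A6_c0_t24 : CovD 1 gA6 [(27487371264, 3054501888), (137438953472, 137438953472), (1786706395136, 137438953472)] :=
  covD_E kA6_eq (.n 0 (.n 1 (.n 2 (.l 0) (.n 0 (.l 0) (.l 0))) (.n 2 (.l 0) (.l 0))) (.n 1 (.n 0 (.n 2 (.l 0) (.l 0)) (.n 2 (.l 0) (.l 0))) (.n 2 (.l 0) (.l 0))))
    [(27487371264, 3054501888), (137438953472, 137438953472), (1786706395136, 137438953472)] rfl (by decide +kernel)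
theorem A6_c0_t25 : CovD 1 gA6 [(33596375040, 3054501888), (137438953472, 137438953472), (1786706395136, 137438953472)] :=
  covD_E kA6_eq (.n 1 (.n 0 (.n 1 (.n 2 (.l 0) (.l 0)) (.n 2 (.l 0) (.l 0))) (.n 1 (.n 2 (.l 0) (.l 0)) (.n 2 (.l 0) (.l 0)))) (.n 1 (.n 0 (.n 2 (.l 0) (.l 0)) (.n 2 (.l 0) (.l 0))) (.n 2 (.l 0) (.l 0))))
    [(33596375040, 3054501888), (137438953472, 137438953472), (1786706395136, 137438953472)] rfl (by decide +kernel)
end

mutual
theorem A6_c0_t27 : CovD 1 gA6 [(27487371264, 3054501888), (137438953472, 137438953472), (2061584302080, 137438953472)] :=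
  covD_E kA6_eq (.n 0 (.n 1 (.n 1 (.n 2 (.l 0) (.l 0)) (.n 2 (.l 0) (.l 0))) (.n 0 (.n 2 (.l 0) (.l 0)) (.n 2 (.l 0) (.l 0)))) (.n 1 (.n 1 (.n 2 (.l 0) (.l 0)) (.n 2 (.l 0) (.l 0))) (.n 0 (.n 2 (.l 0) (.l 0)) (.n 2 (.l 0) (.l 0)))))
    [(27487371264, 3054501888), (137438953472, 137438953472), (2061584302080, 137438953472)] rfl (by decide +kernel)
theorem A6_c0_t28 : CovD 1 gA6 [(33596375040, 3054501888), (137438953472, 137438953472), (2061584302080, 137438953472)] :=
  covD_E kA6_eq (.n 0 (.n 1 (.n 1 (.n 2 (.l 0) (.l 0)) (.n 2 (.l 0) (.l 0))) (.n 0 (.n 2 (.l 0) (.l 0)) (.n 2 (.l 0) (.l 0)))) (.n 1 (.n 1 (.n 2 (.l 0) (.l 0)) (.n 2 (.l 0) (.l 0))) (.n 2 (.n 0 (.l 0) (.l 0)) (.l 0))))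
    [(33596375040, 3054501888), (137438953472, 137438953472), (2061584302080, 137438953472)] rfl (by decide +kernel)
end

mutual
theorem A6_c0_t33 : CovD 1 gA6 [(27487371264, 3054501888), (137438953472, 137438953472), (2336462209024, 137438953472)] :=
  covD_E kA6_eq (.n 0 (.n 1 (.n 2 (.n 2 (.l 0) (.l 0)) (.n 2 (.l 0) (.l 0))) (.n 1 (.n 2 (.l 0) (.l 0)) (.n 2 (.l 0) (.l 0)))) (.n 1 (.n 1 (.n 2 (.l 0) (.l 0)) (.n 2 (.l 0) (.l 0))) (.n 0 (.n 2 (.l 0) (.l 0)) (.n 2 (.l 0) (.l 0)))))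
    [(27487371264, 3054501888), (137438953472, 137438953472), (2336462209024, 137438953472)] rfl (by decide +kernel)
theorem A6_c0_t34 : CovD 1 gA6 [(33596375040, 3054501888), (137438953472, 137438953472), (2336462209024, 137438953472)] :=
  covD_E kA6_eq (.n 0 (.n 1 (.n 0 (.n 2 (.l 0) (.l 0)) (.n 2 (.l 0) (.l 0))) (.n 2 (.l 0) (.l 0))) (.n 1 (.n 2 (.n 0 (.l 0) (.l 0)) (.l 0)) (.n 2 (.l 0) (.l 0))))
    [(33596375040, 3054501888), (137438953472, 137438953472), (2336462209024, 137438953472)] rfl (by decide +kernel)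
end

mutual
theorem A6_c0_t36 : CovD 1 gA6 [(27487371264, 3054501888), (137438953472, 137438953472), (2611340115968, 137438953472)] :=
  covD_E kA6_eq (.n 0 (.n 1 (.n 2 (.n 2 (.l 0) (.l 0)) (.n 2 (.l 0) (.n 0 (.l 0) (.l 0)))) (.n 1 (.n 2 (.l 0) (.l 0)) (.n 2 (.l 0) (.l 0)))) (.n 1 (.n 0 (.n 2 (.l 0) (.l 0)) (.n 2 (.l 0) (.l 0))) (.n 2 (.l 0) (.l 0))))
    [(27487371264, 3054501888), (137438953472, 137438953472), (2611340115968, 137438953472)] rfl (by decide +kernel)
theorem A6_c0_t37 : CovD 1 gA6 [(33596375040, 3054501888), (137438953472, 137438953472), (2611340115968, 137438953472)] :=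
  covD_E kA6_eq (.n 0 (.n 1 (.n 2 (.l 0) (.l 0)) (.n 1 (.l 0) (.l 0))) (.n 1 (.n 2 (.l 0) (.l 0)) (.n 0 (.l 0) (.l 0))))
    [(33596375040, 3054501888), (137438953472, 137438953472), (2611340115968, 137438953472)] rfl (by decide +kernel)
end

mutual
theorem A6_c0_t41 : CovD 1 gA6 [(25960120320, 1527250944), (137438953472, 137438953472), (2886218022912, 137438953472)] :=
  covD_E kA6_eq (.n 1 (.n 1 (.n 2 (.n 2 (.l 0) (.l 0)) (.n 0 (.n 2 (.l 0) (.l 0)) (.l 0))) (.n 2 (.n 0 (.l 0) (.l 0)) (.n 2 (.l 0) (.l 0)))) (.n 1 (.n 2 (.l 0) (.n 0 (.l 0) (.l 0))) (.n 2 (.l 0) (.l 0))))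
    [(25960120320, 1527250944), (137438953472, 137438953472), (2886218022912, 137438953472)] rfl (by decide +kernel)
theorem A6_c0_t42 : CovD 1 gA6 [(29014622208, 1527250944), (137438953472, 137438953472), (2886218022912, 137438953472)] :=
  covD_E kA6_eq (.n 1 (.n 2 (.l 0) (.l 0)) (.n 2 (.l 0) (.l 0)))
    [(29014622208, 1527250944), (137438953472, 137438953472), (2886218022912, 137438953472)] rfl (by decide +kernel)
end

mutual
theorem A6_c0_t43 : CovD 1 gA6 [(33596375040, 3054501888), (137438953472, 137438953472), (2886218022912, 137438953472)] :=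
  covD_E kA6_eq (.n 0 (.n 0 (.n 1 (.l 0) (.l 0)) (.n 1 (.l 0) (.l 0))) (.n 1 (.l 0) (.l 0)))
    [(33596375040, 3054501888), (137438953472, 137438953472), (2886218022912, 137438953472)] rfl (by decide +kernel)
theorem A6_c0_t46 : CovD 1 gA6 [(27487371264, 3054501888), (137438953472, 137438953472), (3092376453120, 68719476736)] :=
  covD_E kA6_eq (.n 0 (.n 1 (.n 1 (.n 2 (.n 2 (.l 0) (.l 0)) (.n 0 (.n 0 (.n 2 (.l 0) (.n 2 (.l 0) (.l 0))) (.l 0)) (.l 0))) (.n 2 (.l 0) (.n 2 (.l 0) (.l 0)))) (.n 0 (.n 1 (.n 2 (.l 0) (.l 0)) (.l 0)) (.l 0))) (.n 1 (.l 0) (.l 0)))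
    [(27487371264, 3054501888), (137438953472, 137438953472), (3092376453120, 68719476736)] rfl (by decide +kernel)
end

mutual
theorem A6_c0_t47 : CovD 1 gA6 [(33596375040, 3054501888), (137438953472, 137438953472), (3092376453120, 68719476736)] :=
  covD_E kA6_eq (.n 1 (.n 0 (.l 0) (.l 0)) (.l 0))
    [(33596375040, 3054501888), (137438953472, 137438953472), (3092376453120, 68719476736)] rfl (by decide +kernel)
theorem A6_c0_t51 : CovD 1 gA6 [(25196494848, 763625472), (137438953472, 137438953472), (3229815406592, 68719476736)] :=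
  covD_E kA6_eq (.n 2 (.n 0 (.n 1 (.n 2 (.n 1 (.n 2 (.n 1 (.l 0) (.l 0)) (.n 0 (.l 1) (.l 0))) (.l 0)) (.l 1)) (.n 2 (.l 0) (.l 1))) (.n 1 (.n 2 (.n 1 (.l 0) (.l 0)) (.l 1)) (.n 2 (.l 0) (.l 1)))) (.l 1))
    [(25196494848, 763625472), (137438953472, 137438953472), (3229815406592, 68719476736)] rfl (by decide +kernel)
end

mutual
theorem A6_c0_t52 : CovD 1 gA6 [(26723745792, 763625472), (137438953472, 137438953472), (3229815406592, 68719476736)] :=
  covD_E kA6_eq (.n 2 (.n 1 (.n 2 (.l 0) (.n 0 (.l 1) (.n 0 (.l 1) (.l 0)))) (.n 2 (.l 0) (.n 0 (.l 1) (.n 0 (.l 1) (.l 0))))) (.l 1))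
    [(26723745792, 763625472), (137438953472, 137438953472), (3229815406592, 68719476736)] rfl (by decide +kernel)
theorem A6_c0_t53 : CovD 1 gA6 [(29014622208, 1527250944), (137438953472, 137438953472), (3229815406592, 68719476736)] :=
  covD_E kA6_eq (.n 0 (.n 0 (.n 2 (.n 0 (.n 1 (.l 0) (.l 0)) (.n 1 (.l 0) (.l 0))) (.l 1)) (.n 2 (.n 1 (.l 0) (.l 0)) (.l 1))) (.n 1 (.n 2 (.l 0) (.l 1)) (.n 2 (.l 0) (.n 0 (.l 1) (.l 1)))))
    [(29014622208, 1527250944), (137438953472, 137438953472), (3229815406592, 68719476736)] rfl (by decide +kernel)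
end

mutual
theorem A6_c0_t55 : CovD 1 gA6 [(32069124096, 1527250944), (137438953472, 137438953472), (3229815406592, 68719476736)] :=
  covD_E kA6_eq (.n 0 (.n 2 (.n 1 (.l 0) (.l 0)) (.n 0 (.n 1 (.l 1) (.l 1)) (.n 2 (.n 1 (.l 0) (.l 0)) (.l 1)))) (.n 0 (.n 2 (.l 0) (.n 2 (.l 0) (.l 1))) (.n 2 (.l 0) (.n 2 (.l 0) (.l 1)))))
    [(32069124096, 1527250944), (137438953472, 137438953472), (3229815406592, 68719476736)] rfl (by decide +kernel)
theorem A6_c0_t56 : CovD 1 gA6 [(35123625984, 1527250944), (137438953472, 137438953472), (3229815406592, 68719476736)] :=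
  covD_E kA6_eq (.n 0 (.n 0 (.n 2 (.l 0) (.n 1 (.l 0) (.l 0))) (.n 1 (.l 0) (.l 0))) (.n 1 (.l 0) (.l 0)))
    [(35123625984, 1527250944), (137438953472, 137438953472), (3229815406592, 68719476736)] rfl (by decide +kernel)
end

mutual
theorem A6_c0_t57 : CovD 1 gA6 [(30541873152, 6109003776), (137438953472, 137438953472), (3848290697216, 549755813888)] :=
  covD_E kA6_eq (.n 2 (.n 2 (.n 0 (.n 0 (.l 1) (.l 1)) (.n 2 (.n 0 (.l 1) (.n 0 (.l 1) (.n 0 (.l 1) (.l 1)))) (.l 1))) (.n 0 (.l 1) (.l 1))) (.n 2 (.l 1) (.l 1)))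
    [(30541873152, 6109003776), (137438953472, 137438953472), (3848290697216, 549755813888)] rfl (by decide +kernel)
theorem A6_c0_t58 : CovD 1 gA6 [(30541873152, 6109003776), (137438953472, 137438953472), (6597069766656, 2199023255552)] :=
  covD_E kA6_eq (.n 2 (.n 2 (.n 2 (.l 1) (.l 1)) (.n 2 (.l 1) (.l 1))) (.n 2 (.n 2 (.l 1) (.l 1)) (.n 2 (.l 1) (.l 1))))
    [(30541873152, 6109003776), (137438953472, 137438953472), (6597069766656, 2199023255552)] rfl (by decide +kernel)
end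

mutual
theorem B6_c0_t1 : CovD 1 gB6 [(27487371264, 3054501888), (137438953472, 137438953472), (68719476736, 68719476736)] :=
  covD_E kB6_eq (.n 2 (.n 2 (.n 0 (.n 2 (.l 1) (.l 1)) (.n 2 (.l 1) (.l 1))) (.n 2 (.n 0 (.l 1) (.l 1)) (.l 1))) (.n 2 (.n 2 (.l 1) (.l 1)) (.n 0 (.l 1) (.l 1))))
    [(27487371264, 3054501888), (137438953472, 137438953472), (68719476736, 68719476736)] rfl (by decide +kernel)
theorem B6_c0_t2 : CovD 1 gB6 [(33596375040, 3054501888), (137438953472, 137438953472), (68719476736, 68719476736)] :=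
  covD_E kB6_eq (.n 2 (.n 2 (.n 2 (.l 1) (.l 1)) (.n 2 (.l 1) (.l 1))) (.n 2 (.n 2 (.l 1) (.l 1)) (.l 1)))
    [(33596375040, 3054501888), (137438953472, 137438953472), (68719476736, 68719476736)] rfl (by decide +kernel)
end

mutual
theorem C6_c0_t4 : CovD 1 gC6 [(30541873152, 6109003776), (17179869184, 17179869184), (274877906944, 274877906944)] :=
  covD_E kC6_eq (.n 0 (.n 2 (.n 2 (.l 0) (.l 0)) (.n 2 (.l 0) (.l 0))) (.n 2 (.n 2 (.l 0) (.l 0)) (.n 2 (.l 0) (.l 0))))
    [(30541873152, 6109003776), (17179869184, 17179869184), (274877906944, 274877906944)] rfl (by decide +kernel)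
theorem C6_c0_t5 : CovD 1 gC6 [(30541873152, 6109003776), (17179869184, 17179869184), (824633720832, 274877906944)] :=
  covD_E kC6_eq (.n 2 (.n 0 (.n 2 (.l 0) (.l 0)) (.n 2 (.l 0) (.l 0))) (.n 1 (.n 1 (.n 2 (.n 0 (.l 0) (.l 0)) (.n 2 (.l 0) (.n 2 (.l 0) (.n 2 (.l 0) (.n 2 (.l 0) (.l 1)))))) (.n 0 (.l 0) (.l 0))) (.n 0 (.l 0) (.l 0))))
    [(30541873152, 6109003776), (17179869184, 17179869184), (824633720832, 274877906944)] rfl (by decide +kernel)
end

mutual
theorem C6_c0_t6 : CovD 1 gC6 [(30541873152, 6109003776), (51539607552, 17179869184), (549755813888, 549755813888)] :=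
  covD_E kC6_eq (.n 0 (.n 2 (.n 2 (.l 0) (.l 0)) (.n 2 (.l 0) (.l 0))) (.n 2 (.n 2 (.l 0) (.l 0)) (.n 2 (.l 0) (.l 0))))
    [(30541873152, 6109003776), (51539607552, 17179869184), (549755813888, 549755813888)] rfl (by decide +kernel)
theorem C6_c0_t7 : CovD 1 gC6 [(30541873152, 6109003776), (103079215104, 34359738368), (549755813888, 549755813888)] :=
  covD_E kC6_eq (.n 0 (.n 2 (.n 2 (.l 0) (.l 0)) (.n 2 (.l 0) (.l 0))) (.n 2 (.n 2 (.l 0) (.l 0)) (.n 2 (.l 0) (.l 0))))
    [(30541873152, 6109003776), (103079215104, 34359738368), (549755813888, 549755813888)] rfl (by decide +kernel)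
end

mutual
theorem C6_c0_t8 : CovD 1 gC6 [(30541873152, 6109003776), (206158430208, 68719476736), (549755813888, 549755813888)] :=
  covD_E kC6_eq (.n 0 (.n 2 (.n 2 (.l 0) (.l 0)) (.n 2 (.l 0) (.l 0))) (.n 2 (.n 2 (.l 0) (.l 0)) (.n 2 (.l 0) (.l 0))))
    [(30541873152, 6109003776), (206158430208, 68719476736), (549755813888, 549755813888)] rfl (by decide +kernel)
theorem D6_c0_t1 : CovD 1 gD6 [(27487371264, 3054501888), (137438953472, 137438953472), (863610339328, 863610339328)] :=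
  covD_E kD6_eq (.n 2 (.n 2 (.n 2 (.l 0) (.l 0)) (.n 2 (.l 0) (.l 0))) (.n 2 (.n 2 (.l 0) (.l 0)) (.n 2 (.n 0 (.l 0) (.l 0)) (.n 2 (.l 0) (.l 0)))))
    [(27487371264, 3054501888), (137438953472, 137438953472), (863610339328, 863610339328)] rfl (by decide +kernel)
end

mutual
theorem D6_c0_t2 : CovD 1 gD6 [(33596375040, 3054501888), (137438953472, 137438953472), (863610339328, 863610339328)] :=
  covD_E kD6_eq (.n 2 (.n 2 (.n 2 (.l 0) (.l 0)) (.n 2 (.l 0) (.l 0))) (.n 2 (.n 2 (.l 0) (.l 0)) (.n 2 (.l 0) (.l 0))))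
    [(33596375040, 3054501888), (137438953472, 137438953472), (863610339328, 863610339328)] rfl (by decide +kernel)
theorem E6_c0_t2 : CovD 1 gE6 [(30541873152, 6109003776), (137438953472, 137438953472), (215902584832, 215902584832)] :=
  covD_E kE6_eq (.n 2 (.l 1) (.n 2 (.l 1) (.n 1 (.l 1) (.l 1))))
    [(30541873152, 6109003776), (137438953472, 137438953472), (215902584832, 215902584832)] rfl (by decide +kernel)
end

mutual
theorem E6_c0_t6 : CovD 1 gE6 [(30541873152, 6109003776), (137438953472, 137438953472), (458792992768, 26987823104)] :=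
  covD_E kE6_eq (.n 0 (.n 0 (.n 2 (.n 0 (.n 1 (.n 1 (.n 0 (.n 2 (.l 1) (.l 0)) (.l 1)) (.l 0)) (.l 0)) (.l 1)) (.n 1 (.n 1 (.l 0) (.l 0)) (.l 0))) (.l 1)) (.l 1))
    [(30541873152, 6109003776), (137438953472, 137438953472), (458792992768, 26987823104)] rfl (by decide +kernel)
theorem E6_c0_t7 : CovD 1 gE6 [(30541873152, 6109003776), (137438953472, 137438953472), (512768638976, 26987823104)] :=
  covD_E kE6_eq (.n 0 (.n 0 (.n 1 (.l 0) (.l 0)) (.n 0 (.l 0) (.l 0))) (.n 0 (.l 0) (.l 0)))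
    [(30541873152, 6109003776), (137438953472, 137438953472), (512768638976, 26987823104)] rfl (by decide +kernel)
end

mutual
theorem E6_c0_t8 : CovD 1 gE6 [(30541873152, 6109003776), (137438953472, 137438953472), (593732108288, 53975646208)] :=
  covD_E kE6_eq (.n 0 (.n 1 (.n 2 (.l 0) (.l 0)) (.n 2 (.l 0) (.l 0))) (.n 2 (.n 0 (.l 0) (.l 0)) (.l 0)))
    [(30541873152, 6109003776), (137438953472, 137438953472), (593732108288, 53975646208)] rfl (by decide +kernel)
theorem E6_c0_t9 : CovD 1 gE6 [(30541873152, 6109003776), (137438953472, 137438953472), (755659046912, 107951292416)] :=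
  covD_E kE6_eq (.n 2 (.n 0 (.n 2 (.l 0) (.l 0)) (.n 2 (.l 0) (.l 0))) (.n 0 (.n 2 (.l 0) (.l 0)) (.n 0 (.l 0) (.l 0))))
    [(30541873152, 6109003776), (137438953472, 137438953472), (755659046912, 107951292416)] rfl (by decide +kernel)
end

mutual
theorem E6_c0_t11 : CovD 1 gE6 [(30541873152, 6109003776), (137438953472, 137438953472), (1079512924160, 215902584832)] :=
  covD_E kE6_eq (.n 2 (.n 2 (.n 0 (.n 0 (.l 0) (.l 0)) (.l 0)) (.n 0 (.l 0) (.l 0))) (.n 2 (.n 0 (.l 0) (.l 0)) (.n 0 (.l 0) (.l 0))))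
    [(30541873152, 6109003776), (137438953472, 137438953472), (1079512924160, 215902584832)] rfl (by decide +kernel)
theorem E6_c0_t12 : CovD 1 gE6 [(30541873152, 6109003776), (137438953472, 137438953472), (1511318093824, 215902584832)] :=
  covD_E kE6_eq (.n 2 (.n 2 (.n 0 (.l 0) (.l 0)) (.n 0 (.l 0) (.l 0))) (.n 2 (.n 0 (.l 0) (.l 0)) (.n 0 (.l 0) (.l 0))))
    [(30541873152, 6109003776), (137438953472, 137438953472), (1511318093824, 215902584832)] rfl (by decide +kernel)
end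

theorem A6_c0_t7 : CovD 1 gA6 [(30541873152, 6109003776), (137438953472, 137438953472), (206158430208, 68719476736)] :=
  covD_split 0 (by decide +kernel) A6_c0_t8 A6_c0_t9

theorem A6_c0_t5 : CovD 1 gA6 [(30541873152, 6109003776), (137438953472, 137438953472), (137438953472, 137438953472)] :=
  covD_split 2 (by decide +kernel) A6_c0_t6 A6_c0_t7

theorem A6_c0_t10 : CovD 1 gA6 [(30541873152, 6109003776), (137438953472, 137438953472), (412316860416, 137438953472)] :=
  covD_split 0 (by decide +kernel) A6_c0_t11 A6_c0_t12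

theorem A6_c0_t4 : CovD 1 gA6 [(30541873152, 6109003776), (137438953472, 137438953472), (274877906944, 274877906944)] :=
  covD_split 2 (by decide +kernel) A6_c0_t5 A6_c0_t10

theorem A6_c0_t13 : CovD 1 gA6 [(30541873152, 6109003776), (137438953472, 137438953472), (824633720832, 274877906944)] :=
  covD_split 2 (by decide +kernel) A6_c0_t14 A6_c0_t15

theorem A6_c0_t3 : CovD 1 gA6 [(30541873152, 6109003776), (137438953472, 137438953472), (549755813888, 549755813888)] :=
  covD_split 2 (by decide +kernel) A6_c0_t4 A6_c0_t13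

theorem A6_c0_t19 : CovD 1 gA6 [(30541873152, 6109003776), (137438953472, 137438953472), (1511828488192, 137438953472)] :=
  covD_split 0 (by decide +kernel) A6_c0_t20 A6_c0_t21

theorem A6_c0_t17 : CovD 1 gA6 [(30541873152, 6109003776), (137438953472, 137438953472), (1374389534720, 274877906944)] :=
  covD_split 2 (by decide +kernel) A6_c0_t18 A6_c0_t19

theorem A6_c0_t23 : CovD 1 gA6 [(30541873152, 6109003776), (137438953472, 137438953472), (1786706395136, 137438953472)] :=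
  covD_split 0 (by decide +kernel) A6_c0_t24 A6_c0_t25

theorem A6_c0_t26 : CovD 1 gA6 [(30541873152, 6109003776), (137438953472, 137438953472), (2061584302080, 137438953472)] :=
  covD_split 0 (by decide +kernel) A6_c0_t27 A6_c0_t28

theorem A6_c0_t22 : CovD 1 gA6 [(30541873152, 6109003776), (137438953472, 137438953472), (1924145348608, 274877906944)] :=
  covD_split 2 (by decide +kernel) A6_c0_t23 A6_c0_t26

theorem A6_c0_t16 : CovD 1 gA6 [(30541873152, 6109003776), (137438953472, 137438953472), (1649267441664, 549755813888)] :=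
  covD_split 2 (by decide +kernel) A6_c0_t17 A6_c0_t22

theorem A6_c0_t2 : CovD 1 gA6 [(30541873152, 6109003776), (137438953472, 137438953472), (1099511627776, 1099511627776)] :=
  covD_split 2 (by decide +kernel) A6_c0_t3 A6_c0_t16

theorem A6_c0_t32 : CovD 1 gA6 [(30541873152, 6109003776), (137438953472, 137438953472), (2336462209024, 137438953472)] :=
  covD_split 0 (by decide +kernel) A6_c0_t33 A6_c0_t34

theorem A6_c0_t35 : CovD 1 gA6 [(30541873152, 6109003776), (137438953472, 137438953472), (2611340115968, 137438953472)] :=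
  covD_split 0 (by decide +kernel) A6_c0_t36 A6_c0_t37

theorem A6_c0_t31 : CovD 1 gA6 [(30541873152, 6109003776), (137438953472, 137438953472), (2473901162496, 274877906944)] :=
  covD_split 2 (by decide +kernel) A6_c0_t32 A6_c0_t35

theorem A6_c0_t40 : CovD 1 gA6 [(27487371264, 3054501888), (137438953472, 137438953472), (2886218022912, 137438953472)] :=
  covD_split 0 (by decide +kernel) A6_c0_t41 A6_c0_t42

theorem A6_c0_t39 : CovD 1 gA6 [(30541873152, 6109003776), (137438953472, 137438953472), (2886218022912, 137438953472)] :=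
  covD_split 0 (by decide +kernel) A6_c0_t40 A6_c0_t43

theorem A6_c0_t45 : CovD 1 gA6 [(30541873152, 6109003776), (137438953472, 137438953472), (3092376453120, 68719476736)] :=
  covD_split 0 (by decide +kernel) A6_c0_t46 A6_c0_t47

theorem A6_c0_t50 : CovD 1 gA6 [(25960120320, 1527250944), (137438953472, 137438953472), (3229815406592, 68719476736)] :=
  covD_split 0 (by decide +kernel) A6_c0_t51 A6_c0_t52

theorem A6_c0_t49 : CovD 1 gA6 [(27487371264, 3054501888), (137438953472, 137438953472), (3229815406592, 68719476736)] :=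
  covD_split 0 (by decide +kernel) A6_c0_t50 A6_c0_t53

theorem A6_c0_t54 : CovD 1 gA6 [(33596375040, 3054501888), (137438953472, 137438953472), (3229815406592, 68719476736)] :=
  covD_split 0 (by decide +kernel) A6_c0_t55 A6_c0_t56

theorem A6_c0_t48 : CovD 1 gA6 [(30541873152, 6109003776), (137438953472, 137438953472), (3229815406592, 68719476736)] :=
  covD_split 0 (by decide +kernel) A6_c0_t49 A6_c0_t54

theorem A6_c0_t44 : CovD 1 gA6 [(30541873152, 6109003776), (137438953472, 137438953472), (3161095929856, 137438953472)] :=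
  covD_split 2 (by decide +kernel) A6_c0_t45 A6_c0_t48

theorem A6_c0_t38 : CovD 1 gA6 [(30541873152, 6109003776), (137438953472, 137438953472), (3023656976384, 274877906944)] :=
  covD_split 2 (by decide +kernel) A6_c0_t39 A6_c0_t44

theorem A6_c0_t30 : CovD 1 gA6 [(30541873152, 6109003776), (137438953472, 137438953472), (2748779069440, 549755813888)] :=
  covD_split 2 (by decide +kernel) A6_c0_t31 A6_c0_t38

theorem A6_c0_t29 : CovD 1 gA6 [(30541873152, 6109003776), (137438953472, 137438953472), (3298534883328, 1099511627776)] :=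
  covD_split 2 (by decide +kernel) A6_c0_t30 A6_c0_t57

theorem A6_c0_t1 : CovD 1 gA6 [(30541873152, 6109003776), (137438953472, 137438953472), (2199023255552, 2199023255552)] :=
  covD_split 2 (by decide +kernel) A6_c0_t2 A6_c0_t29

theorem A6_c0 : CovD 1 gA6 [(30541873152, 6109003776), (137438953472, 137438953472), (4398046511104, 4398046511104)] :=
  covD_split 2 (by decide +kernel) A6_c0_t1 A6_c0_t58

theorem B6_c0 : CovD 1 gB6 [(30541873152, 6109003776), (137438953472, 137438953472), (68719476736, 68719476736)] :=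
  covD_split 0 (by decide +kernel) B6_c0_t1 B6_c0_t2

theorem C6_c0_t3 : CovD 1 gC6 [(30541873152, 6109003776), (17179869184, 17179869184), (549755813888, 549755813888)] :=
  covD_split 2 (by decide +kernel) C6_c0_t4 C6_c0_t5

theorem C6_c0_t2 : CovD 1 gC6 [(30541873152, 6109003776), (34359738368, 34359738368), (549755813888, 549755813888)] :=
  covD_split 1 (by decide +kernel) C6_c0_t3 C6_c0_t6

theorem C6_c0_t1 : CovD 1 gC6 [(30541873152, 6109003776), (68719476736, 68719476736), (549755813888, 549755813888)] :=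
  covD_split 1 (by decide +kernel) C6_c0_t2 C6_c0_t7

theorem C6_c0 : CovD 1 gC6 [(30541873152, 6109003776), (137438953472, 137438953472), (549755813888, 549755813888)] :=
  covD_split 1 (by decide +kernel) C6_c0_t1 C6_c0_t8

theorem D6_c0 : CovD 1 gD6 [(30541873152, 6109003776), (137438953472, 137438953472), (863610339328, 863610339328)] :=
  covD_split 0 (by decide +kernel) D6_c0_t1 D6_c0_t2

theorem E6_c0_t5 : CovD 1 gE6 [(30541873152, 6109003776), (137438953472, 137438953472), (485780815872, 53975646208)] :=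
  covD_split 2 (by decide +kernel) E6_c0_t6 E6_c0_t7

theorem E6_c0_t4 : CovD 1 gE6 [(30541873152, 6109003776), (137438953472, 137438953472), (539756462080, 107951292416)] :=
  covD_split 2 (by decide +kernel) E6_c0_t5 E6_c0_t8

theorem E6_c0_t3 : CovD 1 gE6 [(30541873152, 6109003776), (137438953472, 137438953472), (647707754496, 215902584832)] :=
  covD_split 2 (by decide +kernel) E6_c0_t4 E6_c0_t9

theorem E6_c0_t1 : CovD 1 gE6 [(30541873152, 6109003776), (137438953472, 137438953472), (431805169664, 431805169664)] :=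
  covD_split 2 (by decide +kernel) E6_c0_t2 E6_c0_t3

theorem E6_c0_t10 : CovD 1 gE6 [(30541873152, 6109003776), (137438953472, 137438953472), (1295415508992, 431805169664)] :=
  covD_split 2 (by decide +kernel) E6_c0_t11 E6_c0_t12

theorem E6_c0 : CovD 1 gE6 [(30541873152, 6109003776), (137438953472, 137438953472), (863610339328, 863610339328)] :=
  covD_split 2 (by decide +kernel) E6_c0_t1 E6_c0_t10

end Pool.Agent.helper14.NS.Q30a
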