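import Pool.Agent.helper14.NS.Q30a.PZ

/-!
Generated: certificates.
-/

namespace Pool.Agent.helper14.NS.Q30a

open Pool.Agent.helper31.IA (Z)
open Pool.Agent.helper31.IX (Op XOps runX Cov CovD cov_split covD_split)
open Pool.Agent.helper31.IC (TD)
open Pool.Agent.helper63.RG (reloc)
open Pool.Agent.helper63.NF hiding TD
open Pool.Agent.helper4.NS
open Pool.Agent.helper14.CF (xE covD_E)
open Pool.Agent.helper14.NR (share)

mutual
theorem Z_c0_t5 : CovD 1 gZ [(30541873152, 6109003776), (68719476736, 68719476736), (81174069248, 26199326720)] :=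
  covD_E kZ_eq (.n 1 (.n 1 (.n 2 (.n 2 (.n 0 (.l 0) (.l 0)) (.l 0)) (.n 0 (.l 0) (.l 0))) (.n 2 (.n 2 (.l 0) (.l 0)) (.n 0 (.l 0) (.l 0)))) (.n 1 (.n 2 (.l 0) (.l 0)) (.n 2 (.l 0) (.l 0))))
    [(30541873152, 6109003776), (68719476736, 68719476736), (81174069248, 26199326720)] rfl (by decide +kernel)
theorem Z_c0_t6 : CovD 1 gZ [(30541873152, 6109003776), (206158430208, 68719476736), (81174069248, 26199326720)] :=
  covD_E kZ_eq (.n 1 (.n 1 (.n 2 (.l 0) (.l 0)) (.n 0 (.l 0) (.l 0))) (.n 0 (.n 1 (.l 0) (.l 0)) (.n 1 (.l 0) (.l 0))))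
    [(30541873152, 6109003776), (206158430208, 68719476736), (81174069248, 26199326720)] rfl (by decide +kernel)
end

mutual
theorem Z_c0_t7 : CovD 1 gZ [(30541873152, 6109003776), (137438953472, 137438953472), (133572722688, 26199326720)] :=
  covD_E kZ_eq (.n 1 (.n 1 (.n 1 (.n 2 (.l 0) (.l 0)) (.n 2 (.l 0) (.l 0))) (.n 0 (.n 1 (.l 0) (.l 0)) (.n 1 (.l 0) (.l 0)))) (.n 1 (.n 1 (.n 0 (.l 0) (.l 0)) (.l 0)) (.n 1 (.l 0) (.l 0))))
    [(30541873152, 6109003776), (137438953472, 137438953472), (133572722688, 26199326720)] rfl (by decide +kernel)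
theorem Z_c0_t8 : CovD 1 gZ [(30541873152, 6109003776), (137438953472, 137438953472), (212170702848, 52398653440)] :=
  covD_E kZ_eq (.n 2 (.n 1 (.n 1 (.n 1 (.l 0) (.l 0)) (.n 2 (.l 0) (.l 0))) (.n 1 (.n 2 (.l 0) (.l 0)) (.n 0 (.l 0) (.l 0)))) (.n 1 (.n 1 (.n 0 (.l 0) (.l 0)) (.n 2 (.l 0) (.l 0))) (.n 1 (.n 2 (.l 0) (.l 0)) (.n 0 (.l 0) (.l 0)))))
    [(30541873152, 6109003776), (137438953472, 137438953472), (212170702848, 52398653440)] rfl (by decide +kernel)
end

mutual
theorem Z_c0_t11 : CovD 1 gZ [(30541873152, 6109003776), (137438953472, 137438953472), (290768683008, 26199326720)] :=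
  covD_E kZ_eq (.n 0 (.n 1 (.n 1 (.l 0) (.n 0 (.l 0) (.l 0))) (.n 1 (.l 0) (.l 0))) (.n 1 (.n 1 (.l 0) (.l 0)) (.n 1 (.l 0) (.l 0))))
    [(30541873152, 6109003776), (137438953472, 137438953472), (290768683008, 26199326720)] rfl (by decide +kernel)
theorem Z_c0_t12 : CovD 1 gZ [(30541873152, 6109003776), (137438953472, 137438953472), (343167336448, 26199326720)] :=
  covD_E kZ_eq (.n 0 (.n 1 (.n 0 (.n 1 (.l 0) (.l 0)) (.n 1 (.l 0) (.l 0))) (.n 1 (.l 0) (.l 0))) (.n 1 (.n 1 (.l 0) (.l 0)) (.n 1 (.l 0) (.l 0))))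
    [(30541873152, 6109003776), (137438953472, 137438953472), (343167336448, 26199326720)] rfl (by decide +kernel)
end

mutual
theorem Z_c0_t14 : CovD 1 gZ [(30541873152, 6109003776), (137438953472, 137438953472), (395565989888, 26199326720)] :=
  covD_E kZ_eq (.n 0 (.n 1 (.n 1 (.n 1 (.l 0) (.l 0)) (.n 0 (.l 0) (.l 0))) (.n 1 (.n 0 (.l 0) (.l 0)) (.l 0))) (.n 1 (.n 1 (.l 0) (.l 0)) (.n 1 (.l 0) (.l 0))))
    [(30541873152, 6109003776), (137438953472, 137438953472), (395565989888, 26199326720)] rfl (by decide +kernel)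
theorem Z_c0_t15 : CovD 1 gZ [(30541873152, 6109003776), (137438953472, 137438953472), (447964643328, 26199326720)] :=
  covD_E kZ_eq (.n 0 (.n 1 (.n 1 (.n 2 (.l 0) (.l 0)) (.n 0 (.l 0) (.l 0))) (.n 1 (.n 0 (.l 0) (.l 0)) (.l 0))) (.n 1 (.n 1 (.n 0 (.l 0) (.l 0)) (.l 0)) (.n 1 (.l 0) (.l 0))))
    [(30541873152, 6109003776), (137438953472, 137438953472), (447964643328, 26199326720)] rfl (by decide +kernel)
end

mutual
theorem Z_c0_t19 : CovD 1 gZ [(30541873152, 6109003776), (137438953472, 137438953472), (500363296768, 26199326720)] :=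
  covD_E kZ_eq (.n 0 (.n 1 (.n 1 (.n 2 (.l 0) (.l 0)) (.n 0 (.l 0) (.l 0))) (.n 1 (.l 0) (.l 0))) (.n 1 (.n 1 (.n 0 (.l 0) (.l 0)) (.l 0)) (.n 1 (.l 0) (.l 0))))
    [(30541873152, 6109003776), (137438953472, 137438953472), (500363296768, 26199326720)] rfl (by decide +kernel)
theorem Z_c0_t20 : CovD 1 gZ [(30541873152, 6109003776), (137438953472, 137438953472), (552761950208, 26199326720)] :=
  covD_E kZ_eq (.n 0 (.n 1 (.n 0 (.n 1 (.l 0) (.l 0)) (.n 1 (.l 0) (.l 0))) (.n 1 (.l 0) (.l 0))) (.n 1 (.n 1 (.l 0) (.l 0)) (.n 1 (.l 0) (.l 0))))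
    [(30541873152, 6109003776), (137438953472, 137438953472), (552761950208, 26199326720)] rfl (by decide +kernel)
end

mutual
theorem Z_c0_t22 : CovD 1 gZ [(30541873152, 6109003776), (137438953472, 137438953472), (605160603648, 26199326720)] :=
  covD_E kZ_eq (.n 0 (.n 1 (.n 1 (.n 0 (.l 0) (.l 0)) (.l 0)) (.n 1 (.l 0) (.l 0))) (.n 1 (.n 1 (.l 0) (.l 0)) (.n 1 (.l 0) (.l 0))))
    [(30541873152, 6109003776), (137438953472, 137438953472), (605160603648, 26199326720)] rfl (by decide +kernel)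
theorem Z_c0_t23 : CovD 1 gZ [(30541873152, 6109003776), (137438953472, 137438953472), (657559257088, 26199326720)] :=
  covD_E kZ_eq (.n 0 (.n 1 (.n 1 (.n 0 (.l 0) (.l 0)) (.l 0)) (.n 1 (.l 0) (.l 0))) (.n 1 (.n 1 (.l 0) (.l 0)) (.n 1 (.l 0) (.l 0))))
    [(30541873152, 6109003776), (137438953472, 137438953472), (657559257088, 26199326720)] rfl (by decide +kernel)
end

mutual
theorem Z_c0_t26 : CovD 1 gZ [(30541873152, 6109003776), (137438953472, 137438953472), (709957910528, 26199326720)] :=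
  covD_E kZ_eq (.n 0 (.n 0 (.n 1 (.n 1 (.l 0) (.l 0)) (.n 1 (.l 0) (.l 0))) (.n 1 (.n 1 (.l 0) (.l 0)) (.n 1 (.l 0) (.l 0)))) (.n 1 (.n 1 (.l 0) (.l 0)) (.n 1 (.l 0) (.l 0))))
    [(30541873152, 6109003776), (137438953472, 137438953472), (709957910528, 26199326720)] rfl (by decide +kernel)
theorem Z_c0_t27 : CovD 1 gZ [(30541873152, 6109003776), (137438953472, 137438953472), (762356563968, 26199326720)] :=
  covD_E kZ_eq (.n 0 (.n 0 (.n 1 (.n 1 (.l 0) (.l 0)) (.n 1 (.l 0) (.l 0))) (.n 1 (.n 1 (.l 0) (.l 0)) (.n 1 (.l 0) (.l 0)))) (.n 1 (.n 1 (.l 0) (.l 0)) (.n 1 (.l 0) (.n 0 (.l 0) (.l 0)))))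
    [(30541873152, 6109003776), (137438953472, 137438953472), (762356563968, 26199326720)] rfl (by decide +kernel)
end

mutual
theorem Z_c0_t29 : CovD 1 gZ [(30541873152, 6109003776), (137438953472, 137438953472), (814755217408, 26199326720)] :=
  covD_E kZ_eq (.n 0 (.n 0 (.n 1 (.n 1 (.l 0) (.l 0)) (.n 1 (.l 0) (.l 0))) (.n 1 (.n 1 (.l 0) (.l 0)) (.n 1 (.l 0) (.l 0)))) (.n 1 (.n 1 (.l 0) (.l 0)) (.n 1 (.l 0) (.n 0 (.l 0) (.l 0)))))
    [(30541873152, 6109003776), (137438953472, 137438953472), (814755217408, 26199326720)] rfl (by decide +kernel)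
theorem Z_c0_t31 : CovD 1 gZ [(27487371264, 3054501888), (137438953472, 137438953472), (867153870848, 26199326720)] :=
  covD_E kZ_eq (.n 1 (.n 0 (.n 1 (.l 0) (.l 0)) (.n 1 (.l 0) (.l 0))) (.n 2 (.n 1 (.l 0) (.l 0)) (.n 1 (.l 0) (.n 0 (.l 0) (.l 0)))))
    [(27487371264, 3054501888), (137438953472, 137438953472), (867153870848, 26199326720)] rfl (by decide +kernel)
end

mutual
theorem Z_c0_t32 : CovD 1 gZ [(33596375040, 3054501888), (137438953472, 137438953472), (867153870848, 26199326720)] :=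
  covD_E kZ_eq (.n 1 (.n 0 (.n 1 (.l 0) (.l 0)) (.n 1 (.l 0) (.l 0))) (.n 1 (.n 0 (.l 0) (.l 0)) (.n 1 (.l 0) (.l 0))))
    [(33596375040, 3054501888), (137438953472, 137438953472), (867153870848, 26199326720)] rfl (by decide +kernel)
theorem T_c0 : CovD 1 gT [(30541873152, 6109003776), (137438953472, 137438953472)] :=
  covD_E kT_eq (.n 1 (.l 0) (.l 0))
    [(30541873152, 6109003776), (137438953472, 137438953472)] rfl (by decide +kernel)
end

theorem S_c0 : CovD 0 gS [(30541873152, 6109003776), (137438953472, 137438953472)] :=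
  covD_E kS_eq (.l 0)
    [(30541873152, 6109003776), (137438953472, 137438953472)] rfl (by decide +kernel)

theorem Z_c0_t4 : CovD 1 gZ [(30541873152, 6109003776), (137438953472, 137438953472), (81174069248, 26199326720)] :=
  covD_split 1 (by decide +kernel) Z_c0_t5 Z_c0_t6

theorem Z_c0_t3 : CovD 1 gZ [(30541873152, 6109003776), (137438953472, 137438953472), (107373395968, 52398653440)] :=
  covD_split 2 (by decide +kernel) Z_c0_t4 Z_c0_t7

theorem Z_c0_t2 : CovD 1 gZ [(30541873152, 6109003776), (137438953472, 137438953472), (159772049408, 104797306880)] :=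
  covD_split 2 (by decide +kernel) Z_c0_t3 Z_c0_t8

theorem Z_c0_t10 : CovD 1 gZ [(30541873152, 6109003776), (137438953472, 137438953472), (316968009728, 52398653440)] :=
  covD_split 2 (by decide +kernel) Z_c0_t11 Z_c0_t12

theorem Z_c0_t13 : CovD 1 gZ [(30541873152, 6109003776), (137438953472, 137438953472), (421765316608, 52398653440)] :=
  covD_split 2 (by decide +kernel) Z_c0_t14 Z_c0_t15

theorem Z_c0_t9 : CovD 1 gZ [(30541873152, 6109003776), (137438953472, 137438953472), (369366663168, 104797306880)] :=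
  covD_split 2 (by decide +kernel) Z_c0_t10 Z_c0_t13

theorem Z_c0_t1 : CovD 1 gZ [(30541873152, 6109003776), (137438953472, 137438953472), (264569356288, 209594613760)] :=
  covD_split 2 (by decide +kernel) Z_c0_t2 Z_c0_t9

theorem Z_c0_t18 : CovD 1 gZ [(30541873152, 6109003776), (137438953472, 137438953472), (526562623488, 52398653440)] :=
  covD_split 2 (by decide +kernel) Z_c0_t19 Z_c0_t20

theorem Z_c0_t21 : CovD 1 gZ [(30541873152, 6109003776), (137438953472, 137438953472), (631359930368, 52398653440)] :=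
  covD_split 2 (by decide +kernel) Z_c0_t22 Z_c0_t23

theorem Z_c0_t17 : CovD 1 gZ [(30541873152, 6109003776), (137438953472, 137438953472), (578961276928, 104797306880)] :=
  covD_split 2 (by decide +kernel) Z_c0_t18 Z_c0_t21

theorem Z_c0_t25 : CovD 1 gZ [(30541873152, 6109003776), (137438953472, 137438953472), (736157237248, 52398653440)] :=
  covD_split 2 (by decide +kernel) Z_c0_t26 Z_c0_t27

theorem Z_c0_t30 : CovD 1 gZ [(30541873152, 6109003776), (137438953472, 137438953472), (867153870848, 26199326720)] :=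
  covD_split 0 (by decide +kernel) Z_c0_t31 Z_c0_t32

theorem Z_c0_t28 : CovD 1 gZ [(30541873152, 6109003776), (137438953472, 137438953472), (840954544128, 52398653440)] :=
  covD_split 2 (by decide +kernel) Z_c0_t29 Z_c0_t30

theorem Z_c0_t24 : CovD 1 gZ [(30541873152, 6109003776), (137438953472, 137438953472), (788555890688, 104797306880)] :=
  covD_split 2 (by decide +kernel) Z_c0_t25 Z_c0_t28

theorem Z_c0_t16 : CovD 1 gZ [(30541873152, 6109003776), (137438953472, 137438953472), (683758583808, 209594613760)] :=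
  covD_split 2 (by decide +kernel) Z_c0_t17 Z_c0_t24

theorem Z_c0 : CovD 1 gZ [(30541873152, 6109003776), (137438953472, 137438953472), (474163970048, 419189227520)] :=
  covD_split 2 (by decide +kernel) Z_c0_t1 Z_c0_t16

end Pool.Agent.helper14.NS.Q30a
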